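import Pool.Agent.Helper32.KD2.Basic
import Pool.Agent.Helper37.KD.Basic
/-! KD2-F1: duality, positivity, monotonicity and mass of one step -/
namespace KD.II.F1
open Finset MeasureTheory

variable {d N J : ℕ} [NeZero N] {c0 C0 : ℝ} {Θ : Type} [Fintype Θ] (S : JSys d N J c0 C0 Θ)
  {s ε lam Lam M0 : ℝ} {a : ℕ → Θ → GG d N → ℝ}

lemma Am_Ap (z : GG d N) : Am 1 (Ap 1 z) = z := by
  unfold Am Ap; simp

lemma Ap_Am (z : GG d N) : Ap 1 (Am 1 z) = z := by
  unfold Am Ap; simp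

/-- the transport bijection -/
def eAp (d N : ℕ) [NeZero N] : GG d N ≃ GG d N where
  toFun := Ap 1
  invFun := Am 1
  left_inv := Am_Ap
  right_inv := Ap_Am

/-- relabelling of the jumps -/
def eNeg : Θ ≃ Θ where
  toFun := S.neg
  invFun := S.neg
  left_inv := S.neg_neg
  right_inv := S.neg_neg

lemma jv_neg (j : ℕ) (θ : Θ) : S.jv j (S.neg θ) = - S.jv j θ := by
  unfold JSys.jv vs
  rw [S.pi_neg]
  ext1 <;> simp

lemma wt_neg (j : ℕ) (θ : Θ) : S.wt s j (S.neg θ) = S.wt s j θ := by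
  unfold JSys.wt; rw [S.m_neg]

lemma wt_nonneg (j : ℕ) (θ : Θ) : 0 ≤ S.wt s j θ :=
  div_nonneg (S.m_nn θ) (tim_pos s j).le

theorem step_dual (ha : S.Coef lam Lam M0 a) (ν g : GG d N → ℝ) :
    ∑ z, S.step s ε a ν z * g z = ∑ z, ν z * gen S s ε a g z := by
  have h1 : ∑ z, S.step s ε a ν z * g z = ∑ y, S.Jop s ε a ν y * g (Ap 1 y) := by
    refine Fintype.sum_equiv (eAp d N).symm _ _ (fun z => ?_)
    simp only [JSys.step]
    have : g z = g (Ap 1 ((eAp d N).symm z)) := by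
      rw [show (eAp d N).symm z = Am 1 z from rfl, Ap_Am]
    rw [← this]; rfl
  rw [h1]
  have h2 : ∀ y, S.Jop s ε a ν y * g (Ap 1 y) = ν y * g (Ap 1 y) +
      ε * ∑ j ∈ range (J + 1), ∑ θ, (S.wt s j θ *
        (a j θ (y + S.jv j θ) * ν (y + S.jv j θ) * g (Ap 1 y)) -
        S.wt s j θ * (a j θ y * ν y * g (Ap 1 y))) := by
    intro y
    unfold JSys.Jop
    rw [add_mul, mul_assoc, Finset.sum_mul]
    congr 2
    refine Finset.sum_congr rfl (fun j _ => ?_)
    rw [Finset.sum_mul]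
    refine Finset.sum_congr rfl (fun θ _ => ?_)
    ring
  have h3 : ∀ y, ν y * gen S s ε a g y = ν y * g (Ap 1 y) +
      ε * ∑ j ∈ range (J + 1), ∑ θ, (S.wt s j θ *
        (a j θ y * ν y * g (Ap 1 (y + S.jv j θ))) -
        S.wt s j θ * (a j θ y * ν y * g (Ap 1 y))) := by
    intro y
    unfold gen
    rw [mul_add, ← mul_assoc, mul_comm (ν y) ε, mul_assoc, Finset.mul_sum]
    congr 2
    refine Finset.sum_congr rfl (fun j _ => ?_)
    rw [Finset.mul_sum]
    refine Finset.sum_congr rfl (fun θ _ => ?_)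
    ring
  simp only [h2, h3]
  rw [Finset.sum_add_distrib, Finset.sum_add_distrib, ← Finset.mul_sum, ← Finset.mul_sum]
  congr 2
  rw [Finset.sum_comm, Finset.sum_comm (s := Finset.univ) (t := range (J + 1))]
  refine Finset.sum_congr rfl (fun j _ => ?_)
  rw [Finset.sum_comm, Finset.sum_comm (s := (Finset.univ : Finset (GG d N)))]
  simp only [Finset.sum_sub_distrib]
  congr 1
  rw [← Equiv.sum_comp (eNeg S)]
  refine Finset.sum_congr rfl (fun θ _ => ?_)
  have hn : eNeg S θ = S.neg θ := rfl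
  rw [hn, wt_neg, jv_neg]
  rw [← Finset.mul_sum, ← Finset.mul_sum]
  congr 1
  rw [← sum_shift (fun y => a j (S.neg θ) (y + -S.jv j θ) * ν (y + -S.jv j θ) * g (Ap 1 y))
    (S.jv j θ)]
  refine Finset.sum_congr rfl (fun y _ => ?_)
  rw [add_neg_cancel_right, ha.symm]

theorem step_sum (ha : S.Coef lam Lam M0 a) (ν : GG d N → ℝ) :
    ∑ z, S.step s ε a ν z = ∑ z, ν z := by
  have h := step_dual S (s := s) (ε := ε) ha ν (fun _ => 1)
  simp only [mul_one] at h
  rw [h]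
  refine Finset.sum_congr rfl (fun z _ => ?_)
  unfold gen
  simp

lemma step_lin (ν ν' : GG d N → ℝ) (z : GG d N) :
    S.step s ε a ν' z - S.step s ε a ν z = S.step s ε a (fun y => ν' y - ν y) z := by
  unfold JSys.step JSys.Jop
  have : ∑ j ∈ range (J + 1), ∑ θ, S.wt s j θ *
      (a j θ (Am 1 z + S.jv j θ) * (ν' (Am 1 z + S.jv j θ) - ν (Am 1 z + S.jv j θ)) -
        a j θ (Am 1 z) * (ν' (Am 1 z) - ν (Am 1 z))) =
      ∑ j ∈ range (J + 1), ∑ θ, S.wt s j θ *
        (a j θ (Am 1 z + S.jv j θ) * ν' (Am 1 z + S.jv j θ) - a j θ (Am 1 z) * ν' (Am 1 z)) -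
      ∑ j ∈ range (J + 1), ∑ θ, S.wt s j θ *
        (a j θ (Am 1 z + S.jv j θ) * ν (Am 1 z + S.jv j θ) - a j θ (Am 1 z) * ν (Am 1 z)) := by
    rw [← Finset.sum_sub_distrib]
    refine Finset.sum_congr rfl (fun j _ => ?_)
    rw [← Finset.sum_sub_distrib]
    refine Finset.sum_congr rfl (fun θ _ => ?_)
    ring
  rw [this]; ring

theorem step_nonneg (hlam : 0 ≤ lam) (hε : 0 ≤ ε) (hr : ε * Lam * rate S s ≤ 1)
    (ha : S.Coef lam Lam M0 a) (ν : GG d N → ℝ) (h : ∀ z, 0 ≤ ν z) (z : GG d N) :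
    0 ≤ S.step s ε a ν z := by
  unfold JSys.step JSys.Jop
  set y := Am 1 z
  have h1 : ∑ j ∈ range (J + 1), ∑ θ, S.wt s j θ *
      (a j θ (y + S.jv j θ) * ν (y + S.jv j θ) - a j θ y * ν y) ≥
      - (Lam * rate S s * ν y) := by
    unfold rate
    rw [Finset.mul_sum, Finset.sum_mul, ← Finset.sum_neg_distrib]
    refine Finset.sum_le_sum (fun j _ => ?_)
    rw [Finset.mul_sum, Finset.sum_mul, ← Finset.sum_neg_distrib]
    refine Finset.sum_le_sum (fun θ _ => ?_)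
    have w0 := wt_nonneg S (s := s) j θ
    have a0 : 0 ≤ a j θ (y + S.jv j θ) * ν (y + S.jv j θ) :=
      mul_nonneg (le_trans hlam (ha.lo _ _ _)) (h _)
    have a1 : a j θ y * ν y ≤ Lam * ν y := mul_le_mul_of_nonneg_right (ha.hi _ _ _) (h y)
    have : -(Lam * ν y) ≤ a j θ (y + S.jv j θ) * ν (y + S.jv j θ) - a j θ y * ν y := by linarith
    calc -(Lam * S.wt s j θ * ν y) = S.wt s j θ * (-(Lam * ν y)) := by ring
      _ ≤ _ := mul_le_mul_of_nonneg_left this w0
  have h2 := mul_le_mul_of_nonneg_left h1.le hε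
  have h3 : ε * Lam * rate S s * ν y ≤ 1 * ν y := mul_le_mul_of_nonneg_right hr (h y)
  have h4 : ε * -(Lam * rate S s * ν y) = -(ε * Lam * rate S s * ν y) := by ring
  rw [h4] at h2
  linarith

theorem step_mono (hlam : 0 ≤ lam) (hε : 0 ≤ ε) (hr : ε * Lam * rate S s ≤ 1)
    (ha : S.Coef lam Lam M0 a) (ν ν' : GG d N → ℝ) (h : ∀ z, ν z ≤ ν' z) (z : GG d N) :
    S.step s ε a ν z ≤ S.step s ε a ν' z := by
  have := step_nonneg S hlam hε hr ha (fun y => ν' y - ν y) (fun y => sub_nonneg.2 (h y)) z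
  rw [← step_lin] at this
  linarith

/-- the total rate is bounded, uniformly in the number of scales -/
theorem rate_le (hs : 0 < s) : rate S s ≤ C0 / (1 - (2 : ℝ) ^ (-(2 * s))) := by
  have hm0 : 0 ≤ ∑ θ, S.m θ := Finset.sum_nonneg (fun θ _ => S.m_nn θ)
  set r : ℝ := (2 : ℝ) ^ (-(2 * s)) with hr
  have hr0 : 0 < r := Real.rpow_pos_of_pos two_pos _
  have hr1 : r < 1 := Real.rpow_lt_one_of_one_lt_of_neg one_lt_two (by linarith)
  have htim : ∀ j : ℕ, 1 / tim s j = r ^ j := by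
    intro j
    rw [hr, tim, one_div, ← Real.rpow_neg two_pos.le, ← Real.rpow_natCast, ← Real.rpow_mul two_pos.le]
    congr 1; ring
  have h1 : rate S s = (∑ θ, S.m θ) * ∑ j ∈ range (J + 1), r ^ j := by
    unfold rate JSys.wt
    rw [Finset.mul_sum]
    refine Finset.sum_congr rfl (fun j _ => ?_)
    rw [Finset.sum_mul]
    refine Finset.sum_congr rfl (fun θ _ => ?_)
    rw [← htim]; ring
  have h2 : ∑ j ∈ range (J + 1), r ^ j ≤ 1 / (1 - r) := by
    rw [geom_sum_eq hr1.ne]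
    rw [show (r ^ (J + 1) - 1) / (r - 1) = (1 - r ^ (J + 1)) / (1 - r) by
      rw [← neg_div_neg_eq]; ring_nf]
    apply div_le_div_of_nonneg_right _ (by linarith)
    have : 0 ≤ r ^ (J + 1) := by positivity
    linarith
  rw [h1]
  calc (∑ θ, S.m θ) * ∑ j ∈ range (J + 1), r ^ j ≤ C0 * (1 / (1 - r)) := by
        apply mul_le_mul S.mass h2 (Finset.sum_nonneg (fun j _ => by positivity))
          (le_trans hm0 S.mass)
    _ = C0 / (1 - r) := by ring

end KD.II.F1
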